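import Mathlib

set_option autoImplicit false

namespace Pool.Agent.N926.Sup

open Finset

/-- `(-1/2)_n` -/
def ph (n : ℕ) : ℚ := ∏ i ∈ range n, (-(1/2) + (i:ℚ))

theorem ph_zero : ph 0 = 1 := by simp [ph]

theorem ph_succ (n : ℕ) : ph (n+1) = ph n * (n - 1/2) := by
  unfold ph
  rw [prod_range_succ]
  ring

theorem ph_ne (n : ℕ) : ph n ≠ 0 := by
  unfold ph
  rw [prod_ne_zero_iff]
  intro i _ h
  have h2 : (2:ℚ) * i = 1 := by linarith
  have h3 : 2 * i = 1 := by exact_mod_cast h2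
  omega

/-- `1/(n-k)!`, zero for `k > n` -/
def ef (n k : ℕ) : ℚ := if k ≤ n then (((n-k).factorial : ℕ) : ℚ)⁻¹ else 0

theorem ef_succ (n k : ℕ) : ef n (k+1) = ((n:ℚ) - k) * ef n k := by
  unfold ef
  rcases lt_trichotomy k n with h | h | h
  · rw [if_pos (by omega), if_pos (by omega)]
    obtain ⟨d, rfl⟩ : ∃ d, n = k + 1 + d := ⟨n - k - 1, by omega⟩
    have e1 : k + 1 + d - (k + 1) = d := by omega
    have e2 : k + 1 + d - k = d + 1 := by omega
    rw [e1, e2, Nat.factorial_succ]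
    push_cast
    have : (d.factorial : ℚ) ≠ 0 := by positivity
    have h2 : (d:ℚ) + 1 ≠ 0 := by positivity
    field_simp
    ring
  · subst h
    rw [if_neg (by omega)]
    simp
  · rw [if_neg (by omega), if_neg (by omega)]
    simp

theorem ef_succ_succ (n k : ℕ) : ef (n+1) (k+1) = ef n k := by
  unfold ef
  by_cases h : k ≤ n
  · rw [if_pos (by omega), if_pos h]
    congr 3
    omega
  · rw [if_neg (by omega), if_neg h]

/-- the function `F` of the WZ pair -/
def F (n k : ℕ) : ℚ :=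
  (-1)^(n+k) * (4*n - 1) * ph n ^ 2 * ph (n+k) * ef n k / ((n.factorial : ℚ)^2 * ph k ^ 2)

/-- the function `G(n, k+1)` of the WZ pair -/
def G (n k : ℕ) : ℚ :=
  2 * (-1)^(n+k+1) * n^2 * ph n ^ 2 * ph (n+k) * ef n (k+1) / ((n.factorial : ℚ)^2 * ph (k+1) ^ 2)

theorem wz (n k : ℕ) : F n k - F n (k+1) = G (n+1) k - G n k := by
  unfold F G
  rw [ef_succ_succ, ef_succ, ph_succ k, ph_succ n]
  have e1 : n + (k + 1) = (n + k) + 1 := by ring
  have e2 : n + 1 + k = (n + k) + 1 := by ring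
  rw [e1, e2, ph_succ (n+k), Nat.factorial_succ]
  have h1 := ph_ne k
  have h2 : (n.factorial : ℚ) ≠ 0 := by positivity
  have h3 : (k:ℚ) - 1/2 ≠ 0 := by
    intro h
    have h2 : (2:ℚ) * k = 1 := by linarith
    have h3 : 2 * k = 1 := by exact_mod_cast h2
    omega
  have h4 : (n:ℚ) + 1 ≠ 0 := by positivity
  push_cast
  rw [pow_succ (-1:ℚ) (n+k+1), pow_succ (-1:ℚ) (n+k)]
  generalize ph k = a at *
  generalize ph n = b at *
  generalize ph (n+k) = c at *
  generalize ef n k = d at *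
  generalize (n.factorial : ℚ) = f at *
  generalize (-1:ℚ)^(n+k) = e at *
  generalize (n:ℚ) = N at *
  obtain ⟨x, hx⟩ : ∃ x : ℚ, x = (k:ℚ) - 1/2 := ⟨_, rfl⟩
  have hk : (k:ℚ) = x + 1/2 := by rw [hx]; ring
  rw [hk] at h3 ⊢
  have h5 : x ≠ 0 := by
    intro h
    apply h3
    rw [h]; ring
  have e3 : x + 1/2 - 1/2 = x := by ring
  rw [e3]
  field_simp
  ring

theorem sumF (N k : ℕ) :
    ∑ n ∈ range (N+1), F n k - ∑ n ∈ range (N+1), F n (k+1) = G (N+1) k := by
  rw [← sum_sub_distrib]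
  rw [sum_congr rfl (fun n _ => wz n k), sum_range_sub (fun n => G n k) (N+1)]
  have : G 0 k = 0 := by simp [G]
  rw [this, sub_zero]

/-- `S_1(N) = ∑ F(n,K) + ∑_{k<K} G(N+1,k)` -/
theorem sum_eq (N K : ℕ) :
    ∑ n ∈ range (N+1), F n 0 = ∑ n ∈ range (N+1), F n K + ∑ k ∈ range K, G (N+1) k := by
  induction K with
  | zero => simp
  | succ K ih =>
    rw [ih, sum_range_succ (fun k => G (N+1) k) K, ← sumF N K]
    ring

theorem F_zero (n : ℕ) : F n 0 = (-1)^n * (4*n-1) * ph n ^ 3 / (n.factorial : ℚ)^3 := by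
  unfold F ef
  simp only [add_zero, zero_le, if_true, Nat.sub_zero, ph_zero]
  have h2 : (n.factorial : ℚ) ≠ 0 := by positivity
  field_simp

end Pool.Agent.N926.Sup
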