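import Pool.Agent.N926.Sup.A

set_option autoImplicit false
set_option linter.unusedSectionVars false

namespace Pool.Agent.N926.Sup

open Finset

/-- `x` is zero or has valuation at least `n` -/
def Dv (p : ℕ) (n : ℤ) (x : ℚ) : Prop := x = 0 ∨ n ≤ padicValRat p x

section
variable {p : ℕ} [hp : Fact p.Prime]

theorem Dv.zero (n : ℤ) : Dv p n 0 := Or.inl rfl

theorem Dv.add {n : ℤ} {x y : ℚ} (hx : Dv p n x) (hy : Dv p n y) : Dv p n (x + y) := by
  by_cases h : x + y = 0
  · exact Or.inl h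
  rcases hx with hx | hx
  · subst hx
    rw [zero_add]
    exact hy
  rcases hy with hy | hy
  · subst hy
    rw [add_zero]
    exact Or.inr hx
  exact Or.inr ((le_min hx hy).trans (padicValRat.min_le_padicValRat_add h))

theorem Dv.neg {n : ℤ} {x : ℚ} (hx : Dv p n x) : Dv p n (-x) := by
  rcases hx with hx | hx
  · left; rw [hx, neg_zero]
  · right; rw [padicValRat.neg]; exact hx

theorem Dv.sub {n : ℤ} {x y : ℚ} (hx : Dv p n x) (hy : Dv p n y) : Dv p n (x - y) := by
  rw [sub_eq_add_neg]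
  exact hx.add hy.neg

theorem Dv.sum {ι : Type*} {n : ℤ} (s : Finset ι) (f : ι → ℚ) (h : ∀ i ∈ s, Dv p n (f i)) :
    Dv p n (∑ i ∈ s, f i) := by
  classical
  induction s using Finset.induction_on with
  | empty => exact Or.inl (by simp)
  | insert a s ha ih =>
    rw [sum_insert ha]
    exact (h a (mem_insert_self a s)).add (ih fun i hi => h i (mem_insert_of_mem hi))

theorem Dv.mul {m n : ℤ} {x y : ℚ} (hx : Dv p m x) (hy : Dv p n y) : Dv p (m + n) (x * y) := by
  rcases hx with hx | hx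
  · left; rw [hx, zero_mul]
  rcases hy with hy | hy
  · left; rw [hy, mul_zero]
  by_cases h1 : x = 0
  · left; rw [h1, zero_mul]
  by_cases h2 : y = 0
  · left; rw [h2, mul_zero]
  right
  rw [padicValRat.mul h1 h2]
  exact add_le_add hx hy

theorem Dv.mono {m n : ℤ} {x : ℚ} (h : m ≤ n) (hx : Dv p n x) : Dv p m x := by
  rcases hx with hx | hx
  · exact Or.inl hx
  · exact Or.inr (h.trans hx)

theorem Dv.int (z : ℤ) : Dv p 0 (z:ℚ) := by
  right
  rw [padicValRat.of_int]
  exact_mod_cast Nat.zero_le _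

theorem Dv.int_mul {n : ℤ} {x : ℚ} (z : ℤ) (hx : Dv p n x) : Dv p n ((z:ℚ) * x) := by
  have := (Dv.int (p := p) z).mul hx
  rwa [zero_add] at this

theorem Dv.pow {n : ℤ} {x : ℚ} (k : ℕ) (hx : Dv p n x) : Dv p (k * n) (x ^ k) := by
  induction k with
  | zero => simpa using Dv.int (p := p) 1
  | succ k ih =>
    rw [pow_succ]
    refine (ih.mul hx).mono (le_of_eq ?_)
    push_cast
    ring

/-- levelwise valuation of `n!` -/
def L (p r n : ℕ) : ℤ := ∑ i ∈ Ico 1 (r+1), ((n / p ^ i : ℕ) : ℤ)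

theorem val_fact {r n : ℕ} (h : n < p ^ (r+1)) :
    padicValRat p ((n.factorial : ℕ) : ℚ) = L p r n := by
  rw [padicValRat.of_nat, padicValNat_factorial (b := r+1) (Nat.log_lt_of_lt_pow' (by omega) h)]
  unfold L
  push_cast
  rfl

theorem val_two (h2 : p ≠ 2) : padicValRat p (2:ℚ) = 0 := by
  have : (2:ℚ) = ((2:ℕ):ℚ) := by norm_num
  rw [this, padicValRat.of_nat, padicValNat.eq_zero_of_not_dvd]
  · rfl
  · intro h
    exact h2 ((Nat.prime_dvd_prime_iff_eq hp.out Nat.prime_two).1 h)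

theorem val_neg_one_pow (n : ℕ) : padicValRat p ((-1:ℚ)^n) = 0 := by
  rw [padicValRat.pow, padicValRat.neg, padicValRat.one, mul_zero]

end

theorem ph_fact (n : ℕ) : ph (n+1) = - ((2*n).factorial : ℕ) / (2^(2*n+1) * (n.factorial : ℕ)) := by
  induction n with
  | zero => norm_num [ph_succ, ph_zero]
  | succ n ih =>
    rw [ph_succ, ih]
    have e : 2 * (n+1) = (2*n+1)+1 := by ring
    rw [e, Nat.factorial_succ, Nat.factorial_succ, Nat.factorial_succ n]
    push_cast
    have h1 : (n.factorial : ℚ) ≠ 0 := by positivity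
    have h2 : (n:ℚ) + 1 ≠ 0 := by positivity
    field_simp
    ring

section
variable {p : ℕ} [hp : Fact p.Prime]

theorem val_ph (h2 : p ≠ 2) {r n : ℕ} (h : 2 * n < p ^ (r+1)) :
    padicValRat p (ph (n+1)) = L p r (2*n) - L p r n := by
  have f1 : ((2*n).factorial : ℚ) ≠ 0 := by positivity
  have f2 : (n.factorial : ℚ) ≠ 0 := by positivity
  have f3 : (2:ℚ)^(2*n+1) ≠ 0 := by positivity
  rw [ph_fact, padicValRat.div (neg_ne_zero.2 f1) (mul_ne_zero f3 f2), padicValRat.neg,
    padicValRat.mul f3 f2, padicValRat.pow, val_two h2, mul_zero, zero_add,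
    val_fact h, val_fact (r := r) (by omega)]

theorem val_G (h2 : p ≠ 2) {n k : ℕ} (hk : k ≤ n) :
    padicValRat p (G (n+1) k) = 2 * padicValRat p (ph (n+1)) + padicValRat p (ph (n+k+1))
      - padicValRat p (((n-k).factorial : ℕ) : ℚ) - 2 * padicValRat p ((n.factorial : ℕ) : ℚ)
      - 2 * padicValRat p (ph (k+1)) := by
  have e : G (n+1) k = 2 * (-1)^(n+1+k+1) * ph (n+1) ^ 2 * ph (n+k+1) *
      (((n-k).factorial : ℕ) : ℚ)⁻¹ / (((n.factorial : ℕ) : ℚ)^2 * ph (k+1) ^ 2) := by
    unfold G ef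
    rw [if_pos (by omega), Nat.factorial_succ]
    have e1 : n + 1 - (k+1) = n - k := by omega
    have e2 : n + 1 + k = n + k + 1 := by ring
    rw [e1, e2]
    have h1 := ph_ne (k+1)
    have h2 : (n.factorial : ℚ) ≠ 0 := by positivity
    have h4 : (n:ℚ) + 1 ≠ 0 := by positivity
    have h5 : ((n-k).factorial : ℚ) ≠ 0 := by positivity
    push_cast
    field_simp
  have g1 := ph_ne (n+1)
  have g2 := ph_ne (n+k+1)
  have g3 := ph_ne (k+1)
  have g4 : ((n.factorial : ℕ) : ℚ) ≠ 0 := by positivity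
  have g5 : (((n-k).factorial : ℕ) : ℚ) ≠ 0 := by positivity
  have g6 : (-1:ℚ)^(n+1+k+1) ≠ 0 := pow_ne_zero _ (by norm_num)
  rw [e, padicValRat.div (by positivity) (by positivity),
    padicValRat.mul (by positivity) (by positivity),
    padicValRat.mul (by positivity) (by positivity),
    padicValRat.mul (by positivity) (by positivity),
    padicValRat.mul (by positivity) (by positivity),
    padicValRat.mul (by positivity) (by positivity),
    padicValRat.inv, val_neg_one_pow, padicValRat.pow, padicValRat.pow, padicValRat.pow,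
    val_two h2]
  push_cast
  ring

theorem val_F (h2 : p ≠ 2) {K i : ℕ} :
    padicValRat p (F (K+1+i) (K+1)) = padicValRat p ((4*(K+1+i:ℕ)-1 : ℤ) : ℚ)
      + 2 * padicValRat p (ph (K+1+i)) + padicValRat p (ph (2*K+1+i+1))
      - padicValRat p ((i.factorial : ℕ) : ℚ)
      - 2 * padicValRat p (((K+1+i).factorial : ℕ) : ℚ) - 2 * padicValRat p (ph (K+1)) := by
  have e : F (K+1+i) (K+1) = (-1)^(K+1+i+(K+1)) * ((4*(K+1+i:ℕ)-1 : ℤ) : ℚ) * ph (K+1+i) ^ 2 *
      ph (2*K+1+i+1) * ((i.factorial : ℕ) : ℚ)⁻¹ /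
        ((((K+1+i).factorial : ℕ) : ℚ)^2 * ph (K+1) ^ 2) := by
    unfold F ef
    rw [if_pos (by omega)]
    have e1 : K + 1 + i - (K+1) = i := by omega
    have e2 : 2*K+1+i+1 = K+1+i+(K+1) := by ring
    rw [e1, e2]
    push_cast
    rfl
  have g1 := ph_ne (K+1+i)
  have g2 := ph_ne (2*K+1+i+1)
  have g3 := ph_ne (K+1)
  have g4 : (((K+1+i).factorial : ℕ) : ℚ) ≠ 0 := by positivity
  have g5 : ((i.factorial : ℕ) : ℚ) ≠ 0 := by positivity
  have g6 : (-1:ℚ)^(K+1+i+(K+1)) ≠ 0 := pow_ne_zero _ (by norm_num)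
  have g7 : ((4*(K+1+i:ℕ)-1 : ℤ) : ℚ) ≠ 0 := by
    intro h
    have : (4*((K+1+i:ℕ):ℤ)-1 : ℤ) = 0 := by exact_mod_cast h
    omega
  rw [e, padicValRat.div (by positivity) (by positivity),
    padicValRat.mul (by positivity) (by positivity),
    padicValRat.mul (by positivity) (by positivity),
    padicValRat.mul (by positivity) (by positivity),
    padicValRat.mul (by positivity) (by positivity),
    padicValRat.mul (by positivity) (by positivity),
    padicValRat.inv, val_neg_one_pow, padicValRat.pow, padicValRat.pow, padicValRat.pow]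
  push_cast
  ring

end

end Pool.Agent.N926.Sup
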