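import Pool.Agent.N926.Sup.B

set_option autoImplicit false
set_option linter.unusedSectionVars false
set_option linter.unusedVariables false

namespace Pool.Agent.N926.Sup

open Finset

theorem dq {q x c y : ℕ} (hy : q * c = y) (h1 : y ≤ x) (h2 : x < y + q) : x / q = c := by
  have hq : 0 < q := by omega
  apply Nat.div_eq_of_lt_le
  · rw [Nat.mul_comm c q, hy]; exact h1
  · rw [Nat.add_mul, Nat.mul_comm c q, hy, Nat.one_mul]; exact h2

/-- level expression for `G(M+2, k+1)` -/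
def E1 (q M k : ℕ) : ℤ :=
  2 * (((2*(M+1)/q : ℕ) : ℤ) - ((M+1)/q : ℕ)) + (((2*(M+1+k)/q : ℕ) : ℤ) - ((M+1+k)/q : ℕ))
    - ((M+1-k)/q : ℕ) - 2 * ((M+1)/q : ℕ) - 2 * (((2*k/q : ℕ) : ℤ) - (k/q : ℕ))

/-- level expression for `G(2M+1, k+1)` -/
def E2 (q M k : ℕ) : ℤ :=
  2 * (((2*(2*M)/q : ℕ) : ℤ) - ((2*M)/q : ℕ)) + (((2*(2*M+k)/q : ℕ) : ℤ) - ((2*M+k)/q : ℕ))
    - ((2*M-k)/q : ℕ) - 2 * ((2*M)/q : ℕ) - 2 * (((2*k/q : ℕ) : ℤ) - (k/q : ℕ))

/-- level expression for `F(M+1+i, M+1)` -/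
def E3 (q M i : ℕ) : ℤ :=
  2 * (((2*(M+i)/q : ℕ) : ℤ) - ((M+i)/q : ℕ)) + (((2*(2*M+1+i)/q : ℕ) : ℤ) - ((2*M+1+i)/q : ℕ))
    - (i/q : ℕ) - 2 * ((M+1+i)/q : ℕ) - 2 * (((2*M/q : ℕ) : ℤ) - (M/q : ℕ))

theorem e1 {q M k w u : ℕ} (hq : q = 2*w+1) (hw : 1 ≤ w) (hM : M = q*u+w) (hkM : k ≤ M) :
    1 ≤ E1 q M k ∧ (u = 0 → E1 q M k = 3) := by
  have hq0 : 0 < q := by omega
  obtain ⟨a, b, hb, hk⟩ : ∃ a b, b < q ∧ k = q*a + b :=
    ⟨k/q, k%q, Nat.mod_lt _ hq0, (Nat.div_add_mod k q).symm⟩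
  obtain ⟨A, hA⟩ : ∃ A, A = q*u := ⟨_, rfl⟩
  obtain ⟨B, hB⟩ : ∃ B, B = q*a := ⟨_, rfl⟩
  rw [← hA] at hM
  rw [← hB] at hk
  have hau : a ≤ u := by
    by_contra h
    have h1 : u + 1 ≤ a := by omega
    have h2 : q * (u+1) ≤ q * a := Nat.mul_le_mul_left q h1
    rw [Nat.mul_add, ← hA, ← hB] at h2
    omega
  have hu0 : u = 0 → A = 0 ∧ a = 0 := fun h => ⟨by rw [hA, h, Nat.mul_zero], by omega⟩
  rcases (by omega : b < w ∨ b = w ∨ b = w+1 ∨ w+2 ≤ b) with h | h | h | h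
  · have f1 : 2*(M+1)/q = 2*u+1 := dq (y := 2*A+q) (by rw [hA]; ring) (by omega) (by omega)
    have f2 : (M+1)/q = u := dq (y := A) (by rw [hA]) (by omega) (by omega)
    have f3 : 2*(M+1+k)/q = 2*u+1+2*a+0 := dq (y := 2*A+q+2*B+0*q) (by rw [hA, hB]; ring) (by omega) (by omega)
    have f4 : (M+1+k)/q = u+a+0 := dq (y := A+B+0*q) (by rw [hA, hB]; ring) (by omega) (by omega)
    have f6 : 2*k/q = 2*a+0 := dq (y := 2*B+0*q) (by rw [hB]; ring) (by omega) (by omega)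
    have f7 : k/q = a := dq (y := B) (by rw [hB]) (by omega) (by omega)
    obtain ⟨d, hd⟩ : ∃ d, u = a + d := ⟨u - a, by omega⟩
    have hD : A = B + q*d := by rw [hA, hB, hd]; ring
    have f5 : (M+1-k)/q = d := dq (y := q*d) rfl (by omega) (by omega)
    unfold E1
    rw [f1, f2, f3, f4, f5, f6, f7]
    push_cast
    refine ⟨by omega, fun h0 => ?_⟩
    obtain ⟨g1, g2⟩ := hu0 h0
    omega
  · have f1 : 2*(M+1)/q = 2*u+1 := dq (y := 2*A+q) (by rw [hA]; ring) (by omega) (by omega)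
    have f2 : (M+1)/q = u := dq (y := A) (by rw [hA]) (by omega) (by omega)
    have f3 : 2*(M+1+k)/q = 2*u+1+2*a+1 := dq (y := 2*A+q+2*B+1*q) (by rw [hA, hB]; ring) (by omega) (by omega)
    have f4 : (M+1+k)/q = u+a+1 := dq (y := A+B+1*q) (by rw [hA, hB]; ring) (by omega) (by omega)
    have f6 : 2*k/q = 2*a+0 := dq (y := 2*B+0*q) (by rw [hB]; ring) (by omega) (by omega)
    have f7 : k/q = a := dq (y := B) (by rw [hB]) (by omega) (by omega)
    obtain ⟨d, hd⟩ : ∃ d, u = a + d := ⟨u - a, by omega⟩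
    have hD : A = B + q*d := by rw [hA, hB, hd]; ring
    have f5 : (M+1-k)/q = d := dq (y := q*d) rfl (by omega) (by omega)
    unfold E1
    rw [f1, f2, f3, f4, f5, f6, f7]
    push_cast
    refine ⟨by omega, fun h0 => ?_⟩
    obtain ⟨g1, g2⟩ := hu0 h0
    omega
  · have f1 : 2*(M+1)/q = 2*u+1 := dq (y := 2*A+q) (by rw [hA]; ring) (by omega) (by omega)
    have f2 : (M+1)/q = u := dq (y := A) (by rw [hA]) (by omega) (by omega)
    have f3 : 2*(M+1+k)/q = 2*u+1+2*a+1 := dq (y := 2*A+q+2*B+1*q) (by rw [hA, hB]; ring) (by omega) (by omega)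
    have f4 : (M+1+k)/q = u+a+1 := dq (y := A+B+1*q) (by rw [hA, hB]; ring) (by omega) (by omega)
    have f6 : 2*k/q = 2*a+1 := dq (y := 2*B+1*q) (by rw [hB]; ring) (by omega) (by omega)
    have f7 : k/q = a := dq (y := B) (by rw [hB]) (by omega) (by omega)
    obtain ⟨d, hd⟩ : ∃ d, u = a + d := ⟨u - a, by omega⟩
    have hD : A = B + q*d := by rw [hA, hB, hd]; ring
    have f5 : (M+1-k)/q = d := dq (y := q*d) rfl (by omega) (by omega)
    unfold E1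
    rw [f1, f2, f3, f4, f5, f6, f7]
    push_cast
    refine ⟨by omega, fun h0 => ?_⟩
    obtain ⟨g1, g2⟩ := hu0 h0
    omega
  · have f1 : 2*(M+1)/q = 2*u+1 := dq (y := 2*A+q) (by rw [hA]; ring) (by omega) (by omega)
    have f2 : (M+1)/q = u := dq (y := A) (by rw [hA]) (by omega) (by omega)
    have f3 : 2*(M+1+k)/q = 2*u+1+2*a+1 := dq (y := 2*A+q+2*B+1*q) (by rw [hA, hB]; ring) (by omega) (by omega)
    have f4 : (M+1+k)/q = u+a+1 := dq (y := A+B+1*q) (by rw [hA, hB]; ring) (by omega) (by omega)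
    have f6 : 2*k/q = 2*a+1 := dq (y := 2*B+1*q) (by rw [hB]; ring) (by omega) (by omega)
    have f7 : k/q = a := dq (y := B) (by rw [hB]) (by omega) (by omega)
    obtain ⟨d, hd⟩ : ∃ d, u = a + d := ⟨u - a, by omega⟩
    have hD : A = B + q*d := by rw [hA, hB, hd]; ring
    obtain ⟨e, he⟩ : ∃ e, d = e + 1 := by
      rcases Nat.eq_zero_or_pos d with h0 | h0
      · subst h0
        rw [Nat.mul_zero] at hD
        omega
      · exact ⟨d - 1, by omega⟩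
    have hD2 : q*d = q*e + q := by rw [he]; ring
    have f5 : (M+1-k)/q = e := dq (y := q*e) rfl (by omega) (by omega)
    unfold E1
    rw [f1, f2, f3, f4, f5, f6, f7]
    push_cast
    refine ⟨by omega, fun h0 => ?_⟩
    obtain ⟨g1, g2⟩ := hu0 h0
    omega

theorem e2 {q M k w u : ℕ} (hq : q = 2*w+1) (hw : 1 ≤ w) (hM : M = q*u+w) (hkM : k ≤ M) :
    1 ≤ E2 q M k ∧ (u = 0 → E2 q M k = 3) := by
  have hq0 : 0 < q := by omega
  obtain ⟨a, b, hb, hk⟩ : ∃ a b, b < q ∧ k = q*a + b :=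
    ⟨k/q, k%q, Nat.mod_lt _ hq0, (Nat.div_add_mod k q).symm⟩
  obtain ⟨A, hA⟩ : ∃ A, A = q*u := ⟨_, rfl⟩
  obtain ⟨B, hB⟩ : ∃ B, B = q*a := ⟨_, rfl⟩
  rw [← hA] at hM
  rw [← hB] at hk
  have hau : a ≤ u := by
    by_contra h
    have h1 : u + 1 ≤ a := by omega
    have h2 : q * (u+1) ≤ q * a := Nat.mul_le_mul_left q h1
    rw [Nat.mul_add, ← hA, ← hB] at h2
    omega
  have hu0 : u = 0 → A = 0 ∧ a = 0 := fun h => ⟨by rw [hA, h, Nat.mul_zero], by omega⟩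
  obtain ⟨d, hd⟩ : ∃ d, u = a + d := ⟨u - a, by omega⟩
  have hD : A = B + q*d := by rw [hA, hB, hd]; ring
  rcases (by omega : b = 0 ∨ (1 ≤ b ∧ b ≤ w) ∨ b = w+1 ∨ w+2 ≤ b) with h | h | h | h
  · have f1 : 2*(2*M)/q = 4*u+1 := dq (y := 4*A+q) (by rw [hA]; ring) (by omega) (by omega)
    have f2 : (2*M)/q = 2*u := dq (y := 2*A) (by rw [hA]; ring) (by omega) (by omega)
    have f3 : 2*(2*M+k)/q = 4*u+2*a+1 := dq (y := 4*A+2*B+1*q) (by rw [hA, hB]; ring) (by omega) (by omega)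
    have f4 : (2*M+k)/q = 2*u+a+0 := dq (y := 2*A+B+0*q) (by rw [hA, hB]; ring) (by omega) (by omega)
    have f6 : 2*k/q = 2*a+0 := dq (y := 2*B+0*q) (by rw [hB]; ring) (by omega) (by omega)
    have f7 : k/q = a := dq (y := B) (by rw [hB]) (by omega) (by omega)
    have f5 : (2*M-k)/q = u+d := dq (y := A+q*d) (by rw [hA]; ring) (by omega) (by omega)
    unfold E2
    rw [f1, f2, f3, f4, f5, f6, f7]
    push_cast
    refine ⟨by omega, fun h0 => ?_⟩
    obtain ⟨g1, g2⟩ := hu0 h0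
    omega
  · have f1 : 2*(2*M)/q = 4*u+1 := dq (y := 4*A+q) (by rw [hA]; ring) (by omega) (by omega)
    have f2 : (2*M)/q = 2*u := dq (y := 2*A) (by rw [hA]; ring) (by omega) (by omega)
    have f3 : 2*(2*M+k)/q = 4*u+2*a+2 := dq (y := 4*A+2*B+2*q) (by rw [hA, hB]; ring) (by omega) (by omega)
    have f4 : (2*M+k)/q = 2*u+a+1 := dq (y := 2*A+B+1*q) (by rw [hA, hB]; ring) (by omega) (by omega)
    have f6 : 2*k/q = 2*a+0 := dq (y := 2*B+0*q) (by rw [hB]; ring) (by omega) (by omega)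
    have f7 : k/q = a := dq (y := B) (by rw [hB]) (by omega) (by omega)
    have f5 : (2*M-k)/q = u+d := dq (y := A+q*d) (by rw [hA]; ring) (by omega) (by omega)
    unfold E2
    rw [f1, f2, f3, f4, f5, f6, f7]
    push_cast
    refine ⟨by omega, fun h0 => ?_⟩
    obtain ⟨g1, g2⟩ := hu0 h0
    omega
  · have f1 : 2*(2*M)/q = 4*u+1 := dq (y := 4*A+q) (by rw [hA]; ring) (by omega) (by omega)
    have f2 : (2*M)/q = 2*u := dq (y := 2*A) (by rw [hA]; ring) (by omega) (by omega)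
    have f3 : 2*(2*M+k)/q = 4*u+2*a+2 := dq (y := 4*A+2*B+2*q) (by rw [hA, hB]; ring) (by omega) (by omega)
    have f4 : (2*M+k)/q = 2*u+a+1 := dq (y := 2*A+B+1*q) (by rw [hA, hB]; ring) (by omega) (by omega)
    have f6 : 2*k/q = 2*a+1 := dq (y := 2*B+1*q) (by rw [hB]; ring) (by omega) (by omega)
    have f7 : k/q = a := dq (y := B) (by rw [hB]) (by omega) (by omega)
    have f5 : (2*M-k)/q = u+d := dq (y := A+q*d) (by rw [hA]; ring) (by omega) (by omega)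
    unfold E2
    rw [f1, f2, f3, f4, f5, f6, f7]
    push_cast
    refine ⟨by omega, fun h0 => ?_⟩
    obtain ⟨g1, g2⟩ := hu0 h0
    omega
  · have f1 : 2*(2*M)/q = 4*u+1 := dq (y := 4*A+q) (by rw [hA]; ring) (by omega) (by omega)
    have f2 : (2*M)/q = 2*u := dq (y := 2*A) (by rw [hA]; ring) (by omega) (by omega)
    have f3 : 2*(2*M+k)/q = 4*u+2*a+3 := dq (y := 4*A+2*B+3*q) (by rw [hA, hB]; ring) (by omega) (by omega)
    have f4 : (2*M+k)/q = 2*u+a+1 := dq (y := 2*A+B+1*q) (by rw [hA, hB]; ring) (by omega) (by omega)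
    have f6 : 2*k/q = 2*a+1 := dq (y := 2*B+1*q) (by rw [hB]; ring) (by omega) (by omega)
    have f7 : k/q = a := dq (y := B) (by rw [hB]) (by omega) (by omega)
    have f5 : (2*M-k)/q = u+d := dq (y := A+q*d) (by rw [hA]; ring) (by omega) (by omega)
    unfold E2
    rw [f1, f2, f3, f4, f5, f6, f7]
    push_cast
    refine ⟨by omega, fun h0 => ?_⟩
    obtain ⟨g1, g2⟩ := hu0 h0
    omega

theorem e3 {q M i w u : ℕ} (hq : q = 2*w+1) (hw : 1 ≤ w) (hM : M = q*u+w) :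
    1 ≤ E3 q M i ∧ (u = 0 → 1 ≤ i → i < w → E3 q M i = 3) := by
  have hq0 : 0 < q := by omega
  obtain ⟨a, b, hb, hk⟩ : ∃ a b, b < q ∧ i = q*a + b :=
    ⟨i/q, i%q, Nat.mod_lt _ hq0, (Nat.div_add_mod i q).symm⟩
  obtain ⟨A, hA⟩ : ∃ A, A = q*u := ⟨_, rfl⟩
  obtain ⟨B, hB⟩ : ∃ B, B = q*a := ⟨_, rfl⟩
  rw [← hA] at hM
  rw [← hB] at hk
  have hu0 : u = 0 → A = 0 := fun h => by rw [hA, h, Nat.mul_zero]
  have ha0 : i < w → a = 0 := fun h => by
    by_contra h0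
    have h1 : 1 ≤ a := by omega
    have h2 : q * 1 ≤ q * a := Nat.mul_le_mul_left q h1
    omega
  rcases (by omega : b = 0 ∨ (1 ≤ b ∧ b < w) ∨ (b = w) ∨ w+1 ≤ b) with h | h | h | h
  · have f1 : 2*(M+i)/q = 2*u+2*a+0 := dq (y := 2*A+2*B+0*q) (by rw [hA, hB]; ring) (by omega) (by omega)
    have f2 : (M+i)/q = u+a+0 := dq (y := A+B+0*q) (by rw [hA, hB]; ring) (by omega) (by omega)
    have f3 : 2*(2*M+1+i)/q = 4*u+2+2*a+0 := dq (y := 4*A+2*q+2*B+0*q) (by rw [hA, hB]; ring) (by omega) (by omega)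
    have f4 : (2*M+1+i)/q = 2*u+1+a := dq (y := 2*A+q+B) (by rw [hA, hB]; ring) (by omega) (by omega)
    have f5 : (M+1+i)/q = u+a+0 := dq (y := A+B+0*q) (by rw [hA, hB]; ring) (by omega) (by omega)
    have f6 : i/q = a := dq (y := B) (by rw [hB]) (by omega) (by omega)
    have f7 : 2*M/q = 2*u := dq (y := 2*A) (by rw [hA]; ring) (by omega) (by omega)
    have f8 : M/q = u := dq (y := A) (by rw [hA]) (by omega) (by omega)
    unfold E3
    rw [f1, f2, f3, f4, f5, f6, f7, f8]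
    push_cast
    refine ⟨by omega, fun h0 h1 h2 => ?_⟩
    have g1 := hu0 h0
    have g2 := ha0 h2
    subst g2
    have g3 : B = 0 := by rw [hB, Nat.mul_zero]
    omega
  · have f1 : 2*(M+i)/q = 2*u+2*a+1 := dq (y := 2*A+2*B+1*q) (by rw [hA, hB]; ring) (by omega) (by omega)
    have f2 : (M+i)/q = u+a+0 := dq (y := A+B+0*q) (by rw [hA, hB]; ring) (by omega) (by omega)
    have f3 : 2*(2*M+1+i)/q = 4*u+2+2*a+0 := dq (y := 4*A+2*q+2*B+0*q) (by rw [hA, hB]; ring) (by omega) (by omega)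
    have f4 : (2*M+1+i)/q = 2*u+1+a := dq (y := 2*A+q+B) (by rw [hA, hB]; ring) (by omega) (by omega)
    have f5 : (M+1+i)/q = u+a+0 := dq (y := A+B+0*q) (by rw [hA, hB]; ring) (by omega) (by omega)
    have f6 : i/q = a := dq (y := B) (by rw [hB]) (by omega) (by omega)
    have f7 : 2*M/q = 2*u := dq (y := 2*A) (by rw [hA]; ring) (by omega) (by omega)
    have f8 : M/q = u := dq (y := A) (by rw [hA]) (by omega) (by omega)
    unfold E3
    rw [f1, f2, f3, f4, f5, f6, f7, f8]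
    push_cast
    refine ⟨by omega, fun h0 h1 h2 => ?_⟩
    have g1 := hu0 h0
    have g2 := ha0 h2
    subst g2
    have g3 : B = 0 := by rw [hB, Nat.mul_zero]
    omega
  · have f1 : 2*(M+i)/q = 2*u+2*a+1 := dq (y := 2*A+2*B+1*q) (by rw [hA, hB]; ring) (by omega) (by omega)
    have f2 : (M+i)/q = u+a+0 := dq (y := A+B+0*q) (by rw [hA, hB]; ring) (by omega) (by omega)
    have f3 : 2*(2*M+1+i)/q = 4*u+2+2*a+0 := dq (y := 4*A+2*q+2*B+0*q) (by rw [hA, hB]; ring) (by omega) (by omega)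
    have f4 : (2*M+1+i)/q = 2*u+1+a := dq (y := 2*A+q+B) (by rw [hA, hB]; ring) (by omega) (by omega)
    have f5 : (M+1+i)/q = u+a+1 := dq (y := A+B+1*q) (by rw [hA, hB]; ring) (by omega) (by omega)
    have f6 : i/q = a := dq (y := B) (by rw [hB]) (by omega) (by omega)
    have f7 : 2*M/q = 2*u := dq (y := 2*A) (by rw [hA]; ring) (by omega) (by omega)
    have f8 : M/q = u := dq (y := A) (by rw [hA]) (by omega) (by omega)
    unfold E3
    rw [f1, f2, f3, f4, f5, f6, f7, f8]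
    push_cast
    refine ⟨by omega, fun h0 h1 h2 => ?_⟩
    have g1 := hu0 h0
    have g2 := ha0 h2
    subst g2
    have g3 : B = 0 := by rw [hB, Nat.mul_zero]
    omega
  · have f1 : 2*(M+i)/q = 2*u+2*a+2 := dq (y := 2*A+2*B+2*q) (by rw [hA, hB]; ring) (by omega) (by omega)
    have f2 : (M+i)/q = u+a+1 := dq (y := A+B+1*q) (by rw [hA, hB]; ring) (by omega) (by omega)
    have f3 : 2*(2*M+1+i)/q = 4*u+2+2*a+1 := dq (y := 4*A+2*q+2*B+1*q) (by rw [hA, hB]; ring) (by omega) (by omega)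
    have f4 : (2*M+1+i)/q = 2*u+1+a := dq (y := 2*A+q+B) (by rw [hA, hB]; ring) (by omega) (by omega)
    have f5 : (M+1+i)/q = u+a+1 := dq (y := A+B+1*q) (by rw [hA, hB]; ring) (by omega) (by omega)
    have f6 : i/q = a := dq (y := B) (by rw [hB]) (by omega) (by omega)
    have f7 : 2*M/q = 2*u := dq (y := 2*A) (by rw [hA]; ring) (by omega) (by omega)
    have f8 : M/q = u := dq (y := A) (by rw [hA]) (by omega) (by omega)
    unfold E3
    rw [f1, f2, f3, f4, f5, f6, f7, f8]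
    push_cast
    refine ⟨by omega, fun h0 h1 h2 => ?_⟩
    have g1 := hu0 h0
    have g2 := ha0 h2
    subst g2
    have g3 : B = 0 := by rw [hB, Nat.mul_zero]
    omega

end Pool.Agent.N926.Sup
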