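import Pool.Agent.N926.Sup.C

set_option autoImplicit false
set_option linter.unusedSectionVars false
set_option linter.unusedVariables false

namespace Pool.Agent.N926.Sup

open Finset

/-- the levels `p^i`, `1 ≤ i ≤ r`, relative to `p^r = 2M+1` -/
theorem level {p r M i : ℕ} (hp : p.Prime) (h2 : p ≠ 2) (hM : p^r = 2*M+1) (hi : i ∈ Ico 1 (r+1)) :
    ∃ w u, p^i = 2*w+1 ∧ 1 ≤ w ∧ M = p^i*u+w ∧ (i = r → u = 0 ∧ w = M) := by
  rw [mem_Ico] at hi
  have hodd : Odd p := hp.odd_of_ne_two h2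
  obtain ⟨w, hw⟩ : Odd (p^i) := hodd.pow
  have h3 : 3 ≤ p := by
    have := hp.two_le
    omega
  have hq3 : 3 ≤ p^i := h3.trans (Nat.le_self_pow (by omega) p)
  have hdvd : p^i ∣ p^r := pow_dvd_pow p (by omega)
  obtain ⟨c, hc⟩ := hdvd
  have hcodd : Odd c := by
    have : Odd (p^i * c) := by rw [← hc]; exact hodd.pow
    exact (Nat.odd_mul.1 this).2
  obtain ⟨u, hu⟩ := hcodd
  refine ⟨w, u, hw, by omega, ?_, ?_⟩
  · have h4 : p^i * (2*u+1) = 2*M+1 := by rw [← hu, ← hc, hM]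
    rw [Nat.mul_add, Nat.mul_one, Nat.mul_left_comm] at h4
    omega
  · intro h
    subst h
    have h5 : c = 1 := by
      have hpos : 0 < p^i := by omega
      have : p^i * c = p^i * 1 := by rw [← hc, Nat.mul_one]
      exact Nat.eq_of_mul_eq_mul_left hpos this
    omega

theorem sum_levels {r : ℕ} (hr : 1 ≤ r) (f : ℕ → ℤ) (h1 : ∀ i ∈ Ico 1 (r+1), 1 ≤ f i)
    (h3 : 3 ≤ f r) : (r:ℤ) + 2 ≤ ∑ i ∈ Ico 1 (r+1), f i := by
  rw [sum_Ico_succ_top hr]
  have h4 : ∑ i ∈ Ico 1 r, (1:ℤ) ≤ ∑ i ∈ Ico 1 r, f i := by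
    refine sum_le_sum fun i hi => h1 i ?_
    rw [mem_Ico] at hi ⊢
    omega
  rw [sum_const, Nat.card_Ico, nsmul_eq_mul, mul_one] at h4
  have : ((r - 1 : ℕ) : ℤ) = r - 1 := by omega
  linarith

theorem three_mul {p r M : ℕ} (hp : p.Prime) (h2 : p ≠ 2) (hM : p^r = 2*M+1) :
    6*M+3 ≤ p^(r+1) := by
  have h3 : 3 ≤ p := by
    have := hp.two_le
    omega
  calc 6*M+3 = p^r * 3 := by rw [hM]; ring
    _ ≤ p^r * p := Nat.mul_le_mul_left _ h3
    _ = p^(r+1) := (pow_succ p r).symm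

section
variable {p : ℕ} [hp : Fact p.Prime]

theorem val_G1 (h2 : p ≠ 2) {r M k : ℕ} (hr : 1 ≤ r) (hM : p^r = 2*M+1) (hk : k ≤ M) :
    Dv p (r+2) (G (M+2) k) := by
  right
  have hb := three_mul hp.out h2 hM
  have hM1 : 1 ≤ M := by
    obtain ⟨w, u, h3, h4, h5, h6⟩ := level (i := r) hp.out h2 hM (by rw [mem_Ico]; omega)
    have := h6 rfl
    omega
  have e : padicValRat p (G (M+2) k) = ∑ i ∈ Ico 1 (r+1), E1 (p^i) M k := by
    have := val_G (p := p) h2 (n := M+1) (k := k) (by omega)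
    rw [this, val_ph h2 (r := r) (by omega), val_ph h2 (r := r) (by omega),
      val_ph h2 (r := r) (by omega), val_fact (r := r) (by omega), val_fact (r := r) (by omega)]
    unfold L E1
    simp only [sum_add_distrib, sum_sub_distrib, ← mul_sum]
  rw [e]
  apply sum_levels hr
  · intro i hi
    obtain ⟨w, u, h3, h4, h5, h6⟩ := level hp.out h2 hM hi
    exact (e1 h3 h4 h5 hk).1
  · obtain ⟨w, u, h3, h4, h5, h6⟩ := level (i := r) hp.out h2 hM (by rw [mem_Ico]; omega)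
    exact le_of_eq ((e1 h3 h4 h5 hk).2 (h6 rfl).1).symm

theorem val_G2 (h2 : p ≠ 2) {r M k : ℕ} (hr : 1 ≤ r) (hM : p^r = 2*M+1) (hk : k ≤ M) :
    Dv p (r+2) (G (2*M+1) k) := by
  right
  have hb := three_mul hp.out h2 hM
  have hM1 : 1 ≤ M := by
    obtain ⟨w, u, h3, h4, h5, h6⟩ := level (i := r) hp.out h2 hM (by rw [mem_Ico]; omega)
    have := h6 rfl
    omega
  have e : padicValRat p (G (2*M+1) k) = ∑ i ∈ Ico 1 (r+1), E2 (p^i) M k := by
    have := val_G (p := p) h2 (n := 2*M) (k := k) (by omega)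
    rw [this, val_ph h2 (r := r) (by omega), val_ph h2 (r := r) (by omega),
      val_ph h2 (r := r) (by omega), val_fact (r := r) (by omega), val_fact (r := r) (by omega)]
    unfold L E2
    simp only [sum_add_distrib, sum_sub_distrib, ← mul_sum]
  rw [e]
  apply sum_levels hr
  · intro i hi
    obtain ⟨w, u, h3, h4, h5, h6⟩ := level hp.out h2 hM hi
    exact (e2 h3 h4 h5 hk).1
  · obtain ⟨w, u, h3, h4, h5, h6⟩ := level (i := r) hp.out h2 hM (by rw [mem_Ico]; omega)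
    exact le_of_eq ((e2 h3 h4 h5 hk).2 (h6 rfl).1).symm

theorem val_F3 (h2 : p ≠ 2) {r M i : ℕ} (hr : 1 ≤ r) (hM : p^r = 2*M+1) (hi1 : 1 ≤ i)
    (hi2 : i < M) : Dv p (r+2) (F (M+1+i) (M+1)) := by
  right
  have hb := three_mul hp.out h2 hM
  have e : padicValRat p (F (M+1+i) (M+1)) = padicValRat p ((4*(M+1+i:ℕ)-1 : ℤ) : ℚ) +
      ∑ j ∈ Ico 1 (r+1), E3 (p^j) M i := by
    have := val_F (p := p) h2 (K := M) (i := i)
    have e1 : M + 1 + i = (M + i) + 1 := by ring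
    rw [this]
    have hph : padicValRat p (ph (M+1+i)) = L p r (2*(M+i)) - L p r (M+i) := by
      rw [e1]; exact val_ph h2 (r := r) (by omega)
    rw [hph, val_ph h2 (r := r) (by omega),
      val_ph h2 (r := r) (by omega), val_fact (r := r) (by omega), val_fact (r := r) (by omega)]
    unfold L E3
    simp only [sum_add_distrib, sum_sub_distrib, ← mul_sum]
    ring
  rw [e]
  have h0 : 0 ≤ padicValRat p ((4*(M+1+i:ℕ)-1 : ℤ) : ℚ) := by
    rw [padicValRat.of_int]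
    exact_mod_cast Nat.zero_le _
  have h7 : (r:ℤ) + 2 ≤ ∑ j ∈ Ico 1 (r+1), E3 (p^j) M i := by
    apply sum_levels hr
    · intro j hj
      obtain ⟨w, u, h3, h4, h5, h6⟩ := level hp.out h2 hM hj
      exact (e3 h3 h4 h5).1
    · obtain ⟨w, u, h3, h4, h5, h6⟩ := level (i := r) hp.out h2 hM (by rw [mem_Ico]; omega)
      have h8 := h6 rfl
      exact le_of_eq ((e3 h3 h4 h5).2 h8.1 hi1 (by omega)).symm
  linarith

/-- the boundary terms of the telescoping sums -/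
theorem val_U (h2 : p ≠ 2) {r M N : ℕ} (hr : 1 ≤ r) (hM : p^r = 2*M+1) (hN : N = M+1 ∨ N = 2*M) :
    Dv p r (ph (N+1) / (N.factorial : ℕ)) := by
  right
  have hb := three_mul hp.out h2 hM
  have hM1 : 1 ≤ M := by
    obtain ⟨w, u, h3, h4, h5, h6⟩ := level (i := r) hp.out h2 hM (by rw [mem_Ico]; omega)
    have := h6 rfl
    omega
  have g4 : ((N.factorial : ℕ) : ℚ) ≠ 0 := by positivity
  rw [padicValRat.div (ph_ne _) g4, val_ph h2 (r := r) (by omega), val_fact (r := r) (by omega)]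
  unfold L
  rw [← sum_sub_distrib, ← sum_sub_distrib]
  have : ∑ i ∈ Ico 1 (r+1), (1:ℤ) ≤ ∑ i ∈ Ico 1 (r+1),
      ((((2*N/p^i : ℕ) : ℤ) - ((N/p^i : ℕ) : ℤ)) - ((N/p^i : ℕ) : ℤ)) := by
    refine sum_le_sum fun i hi => ?_
    obtain ⟨w, u, h3, h4, h5, h6⟩ := level hp.out h2 hM hi
    obtain ⟨A, hA⟩ : ∃ A, A = p^i*u := ⟨_, rfl⟩
    obtain ⟨q, hq⟩ : ∃ q, q = p^i := ⟨_, rfl⟩
    rw [← hq] at hA h3 h5 ⊢
    rw [← hA] at h5
    rcases hN with hN | hN
    · subst hN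
      have f1 : 2*(M+1)/q = 2*u+1 := dq (y := 2*A+q) (by rw [hA]; ring) (by omega) (by omega)
      have f2 : (M+1)/q = u := dq (y := A) (by rw [hA]) (by omega) (by omega)
      rw [f1, f2]
      push_cast
      omega
    · subst hN
      have f1 : 2*(2*M)/q = 4*u+1 := dq (y := 4*A+q) (by rw [hA]; ring) (by omega) (by omega)
      have f2 : (2*M)/q = 2*u := dq (y := 2*A) (by rw [hA]; ring) (by omega) (by omega)
      rw [f1, f2]
      push_cast
      omega
  rw [sum_const, Nat.card_Ico, nsmul_eq_mul, mul_one] at this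
  simpa using this

end

/-! ### the main term -/

theorem prod_odd (M : ℕ) : ∏ i ∈ range (2*M+1), (2*(i:ℚ)+1) =
    (2*M+1) * ∏ j ∈ range M, ((2*M+1)^2 - (2*((j:ℚ)+1))^2) := by
  have e : 2*M+1 = M + (M+1) := by ring
  rw [e, prod_range_add, prod_range_succ', ← prod_range_reflect (fun i => 2*(i:ℚ)+1) M]
  have h1 : ∀ j ∈ range M, (2*((M-1-j:ℕ):ℚ)+1) = (2*M+1) - 2*((j:ℚ)+1) := by
    intro j hj
    rw [mem_range] at hj
    have : ((M-1-j:ℕ):ℚ) = M - 1 - j := by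
      rw [Nat.sub_sub, Nat.cast_sub (by omega)]
      push_cast
      ring
    rw [this]
    ring
  rw [prod_congr rfl h1]
  have h2 : ∏ j ∈ range M, ((2*(M:ℚ)+1)^2 - (2*((j:ℚ)+1))^2) =
      (∏ j ∈ range M, ((2*(M:ℚ)+1) - 2*((j:ℚ)+1))) * ∏ j ∈ range M, (2*((M+(j+1):ℕ):ℚ)+1) := by
    rw [← prod_mul_distrib]
    refine prod_congr rfl fun j _ => ?_
    push_cast
    ring
  rw [h2]
  push_cast
  ring

theorem ph_odd (n : ℕ) : ph (n+1) = -(1/2) * (∏ i ∈ range n, (2*(i:ℚ)+1)) / 2^n := by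
  induction n with
  | zero => norm_num [ph_succ, ph_zero]
  | succ n ih =>
    rw [ph_succ, ih, prod_range_succ, pow_succ]
    push_cast
    field_simp
    ring

theorem main_term (M : ℕ) : F (M+1) (M+1) =
    -((2*M+1) * (-1)^M * ∏ j ∈ range (M+1), (1 - ((2*M+1)/(2*((j:ℚ)+1)))^2)) := by
  have h1 : F (M+1) (M+1) = (4*M+3) * ph (2*M+1+1) / ((M+1).factorial : ℚ)^2 := by
    unfold F ef
    have e1 : M + 1 + (M + 1) = 2*M+1+1 := by ring
    rw [if_pos (le_refl _), Nat.sub_self, e1]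
    have h2 := ph_ne (M+1)
    have h3 : ((M+1).factorial : ℚ) ≠ 0 := by positivity
    have h4 : (-1:ℚ)^(2*M+1+1) = 1 := by
      have : 2*M+1+1 = 2*(M+1) := by ring
      rw [this, pow_mul]
      norm_num
    rw [h4]
    push_cast
    field_simp
    ring
  have h5 : ∀ N : ℕ, ∏ j ∈ range N, ((2*(M:ℚ)+1)^2 - (2*((j:ℚ)+1))^2) =
      (-4)^N * (N.factorial : ℚ)^2 * ∏ j ∈ range N, (1 - ((2*M+1)/(2*((j:ℚ)+1)))^2) := by
    intro N
    induction N with
    | zero => simp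
    | succ N ih =>
      rw [prod_range_succ, ih, prod_range_succ, pow_succ, Nat.factorial_succ]
      have : (N:ℚ) + 1 ≠ 0 := by positivity
      push_cast
      field_simp
      ring
  rw [h1, ph_odd, prod_odd, h5, prod_range_succ, Nat.factorial_succ]
  have h6 : (M:ℚ) + 1 ≠ 0 := by positivity
  have h7 : (M.factorial : ℚ) ≠ 0 := by positivity
  have h8 : (-4:ℚ)^M = (-1)^M * 4^M := by rw [← mul_pow]; norm_num
  have h9 : (2:ℚ)^(2*M+1) = 4^M * 2 := by rw [pow_succ, pow_mul]; norm_num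
  have h10 : (4:ℚ)^M ≠ 0 := by positivity
  rw [h8, h9]
  push_cast
  field_simp
  ring

section
variable {p : ℕ} [hp : Fact p.Prime]

theorem Dv.prod_sub_one {ι : Type*} (s : Finset ι) (f : ι → ℚ) (h : ∀ i ∈ s, Dv p 2 (f i)) :
    Dv p 2 (∏ i ∈ s, (1 - f i) - 1) := by
  classical
  induction s using Finset.induction_on with
  | empty => exact Or.inl (by simp)
  | insert a s ha ih =>
    rw [prod_insert ha]
    have h1 := ih fun i hi => h i (mem_insert_of_mem hi)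
    have h2 := h a (mem_insert_self a s)
    have h3 : Dv p 0 (1 - f a) := (by simpa using Dv.int (p := p) 1 : Dv p 0 (1:ℚ)).sub
      (h2.mono (by norm_num))
    have h4 := (h3.mul h1).sub h2
    rw [zero_add] at h4
    have e : (1 - f a) * ∏ i ∈ s, (1 - f i) - 1 = (1 - f a) * (∏ i ∈ s, (1 - f i) - 1) - f a := by
      ring
    rw [e]
    exact h4

theorem main_cong (h2 : p ≠ 2) {r M : ℕ} (hr : 1 ≤ r) (hM : p^r = 2*M+1) :
    Dv p (r+2) (F (M+1) (M+1) + p^r * (-1)^M) := by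
  have hM1 : 1 ≤ M := by
    obtain ⟨w, u, h3, h4, h5, h6⟩ := level (i := r) hp.out h2 hM (by rw [mem_Ico]; omega)
    have := h6 rfl
    omega
  have hP : (2*(M:ℚ)+1) = (p:ℚ)^r := by
    have : ((p^r : ℕ) : ℚ) = ((2*M+1 : ℕ) : ℚ) := by rw [hM]
    push_cast at this
    exact this.symm
  have h3 : ∀ j ∈ range (M+1), Dv p 2 (((2*M+1)/(2*((j:ℚ)+1)))^2) := by
    intro j hj
    rw [mem_range] at hj
    have h4 : Dv p 1 ((2*M+1)/(2*((j:ℚ)+1))) := by
      right
      have hj0 : (j:ℚ) + 1 ≠ 0 := by positivity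
      have hpp : (p:ℚ)^r ≠ 0 := pow_ne_zero _ (by exact_mod_cast hp.out.ne_zero)
      have h5v : padicValRat p ((j:ℚ)+1) = (padicValNat p (j+1) : ℤ) := by
        rw [← padicValRat.of_nat]
        push_cast
        rfl
      rw [hP, padicValRat.div hpp (by positivity), padicValRat.mul (by norm_num) hj0,
        val_two h2, padicValRat.pow, padicValRat.self hp.out.one_lt, h5v]
      have h6 : padicValNat p (j+1) < r := by
        by_contra hcon
        have h7 : p^r ∣ j+1 := (pow_dvd_pow p (by omega)).trans pow_padicValNat_dvd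
        have := Nat.le_of_dvd (by omega) h7
        omega
      omega
    have h5 := h4.pow 2
    simpa using h5
  have h6 := Dv.prod_sub_one (p := p) (range (M+1)) _ h3
  have h7 : Dv p r ((p:ℚ)^r) := by
    right
    rw [padicValRat.pow, padicValRat.self hp.out.one_lt, mul_one]
  have h8 := (h7.mul h6)
  have h9 := (Dv.int_mul (p := p) (-(-1)^M) h8)
  rw [main_term]
  have e : -((2*(M:ℚ)+1) * (-1)^M * ∏ j ∈ range (M+1), (1 - ((2*M+1)/(2*((j:ℚ)+1)))^2)) + p^r * (-1)^M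
      = ((-(-1)^M : ℤ) : ℚ) * ((p:ℚ)^r * (∏ j ∈ range (M+1), (1 - ((2*M+1)/(2*((j:ℚ)+1)))^2) - 1)) := by
    push_cast
    rw [← hP]
    ring
  rw [e]
  exact h9

theorem F_eq_zero {n k : ℕ} (h : n < k) : F n k = 0 := by
  unfold F ef
  rw [if_neg (by omega)]
  simp

/-- `S_1(N) ≡ - p^r (-1)^M` -/
theorem S1_cong (h2 : p ≠ 2) {r M N : ℕ} (hr : 1 ≤ r) (hM : p^r = 2*M+1)
    (hN : N = M+1 ∨ N = 2*M) :
    Dv p (r+2) (∑ n ∈ range (N+1), F n 0 + p^r * (-1)^M) := by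
  have hM1 : 1 ≤ M := by
    obtain ⟨w, u, h3, h4, h5, h6⟩ := level (i := r) hp.out h2 hM (by rw [mem_Ico]; omega)
    have := h6 rfl
    omega
  rw [sum_eq N (M+1)]
  have hG : Dv p (r+2) (∑ k ∈ range (M+1), G (N+1) k) := by
    refine Dv.sum _ _ fun k hk => ?_
    rw [mem_range] at hk
    rcases hN with hN | hN
    · subst hN
      exact val_G1 h2 hr hM (by omega)
    · subst hN
      exact val_G2 h2 hr hM (by omega)
  have hF : Dv p (r+2) (∑ n ∈ range (N+1), F n (M+1) - F (M+1) (M+1)) := by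
    have e : N + 1 = (M+1) + (N - M) := by omega
    rw [e, sum_range_add]
    have h0 : ∑ x ∈ range (M+1), F x (M+1) = 0 :=
      sum_eq_zero fun x hx => F_eq_zero (mem_range.1 hx)
    rw [h0, zero_add]
    obtain ⟨d, hd⟩ : ∃ d, N - M = d + 1 := ⟨N - M - 1, by omega⟩
    rw [hd, sum_range_succ', add_zero]
    have e2 : ∀ x y : ℚ, x + y - y = x := fun x y => by ring
    rw [e2]
    refine Dv.sum _ _ fun k hk => ?_
    rw [mem_range] at hk
    refine val_F3 h2 hr hM (by omega) ?_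
    rcases hN with hN | hN <;> omega
  have e : ∑ n ∈ range (N+1), F n (M+1) + ∑ k ∈ range (M+1), G (N+1) k + (p:ℚ)^r * (-1)^M
      = (∑ n ∈ range (N+1), F n (M+1) - F (M+1) (M+1)) + (F (M+1) (M+1) + p^r * (-1)^M)
        + ∑ k ∈ range (M+1), G (N+1) k := by ring
  rw [e]
  exact (hF.add (main_cong h2 hr hM)).add hG

end

end Pool.Agent.N926.Sup
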