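import Pool.Agent.N926.Sup.D

set_option autoImplicit false
set_option linter.unusedSectionVars false
set_option linter.unusedVariables false

namespace Pool.Agent.N926.Sup

open Finset

/-! ### telescoping and reduction of `m` to `1` -/

/-- `(-1/2)_k / k!` -/
def aa (k : ℕ) : ℚ := ph k / (k.factorial : ℚ)

theorem aa_succ (k : ℕ) : ((k:ℚ)+1) * aa (k+1) = ((k:ℚ) - 1/2) * aa k := by
  unfold aa
  rw [ph_succ, Nat.factorial_succ]
  have h1 : (k.factorial : ℚ) ≠ 0 := by positivity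
  have h2 : (k:ℚ) + 1 ≠ 0 := by positivity
  push_cast
  field_simp

/-- the telescoping polynomial attached to `H`, at `y` -/
def Q (H : ℤ → ℤ) (y : ℤ) : ℤ := (y-1)^3 * H (y+2) + (y+1)^3 * H (y-2)

theorem telescope (H : ℤ → ℤ) (N : ℕ) :
    ∑ k ∈ range (N+1), (-1:ℚ)^k * (Q H (4*k-1) : ℤ) * aa k ^ 3
      = 64 * (-1)^N * (H (4*N+1) : ℤ) * (((N:ℚ)+1) * aa (N+1))^3 := by
  induction N with
  | zero =>
    rw [sum_range_one, aa_succ]
    unfold Q
    norm_num [aa, ph_zero]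
    ring
  | succ N ih =>
    rw [sum_range_succ, ih, aa_succ (N+1)]
    unfold Q
    have e1 : (4 * ((N+1 : ℕ):ℤ) - 1 + 2) = 4 * ((N+1:ℕ):ℤ) + 1 := by ring
    have e2 : (4 * ((N+1 : ℕ):ℤ) - 1 - 2) = 4 * (N:ℤ) + 1 := by push_cast; ring
    rw [e1, e2]
    generalize H (4 * ((N+1:ℕ):ℤ) + 1) = a
    generalize H (4 * (N:ℤ) + 1) = b
    generalize aa (N+1) = c
    rw [pow_succ]
    push_cast
    ring

/-- the weighted sum `Σ_{k≤N} (-1)^k g(4k-1) a_k^3` -/
def W (g : ℤ → ℤ) (N : ℕ) : ℚ := ∑ k ∈ range (N+1), (-1:ℚ)^k * (g (4*k-1) : ℤ) * aa k ^ 3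

/-- `g` reduces to the weight `y`, with constant `c` -/
def Red (g : ℤ → ℤ) (c : ℤ) : Prop := ∃ H : ℤ → ℤ, ∀ y, g y = Q H y - 2 * c * y

theorem Red.add {g₁ g₂ : ℤ → ℤ} {c₁ c₂ : ℤ} (h₁ : Red g₁ c₁) (h₂ : Red g₂ c₂) :
    Red (fun y => g₁ y + g₂ y) (c₁ + c₂) := by
  obtain ⟨H₁, h₁⟩ := h₁
  obtain ⟨H₂, h₂⟩ := h₂
  refine ⟨fun y => H₁ y + H₂ y, fun y => ?_⟩
  show g₁ y + g₂ y = _
  rw [h₁, h₂]
  unfold Q
  ring

theorem Red.smul {g : ℤ → ℤ} {c : ℤ} (a : ℤ) (h : Red g c) :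
    Red (fun y => a * g y) (a * c) := by
  obtain ⟨H, h⟩ := h
  refine ⟨fun y => a * H y, fun y => ?_⟩
  show a * g y = _
  rw [h]
  unfold Q
  ring

theorem Red.sum {ι : Type*} (s : Finset ι) (g : ι → ℤ → ℤ) (h : ∀ i ∈ s, ∃ c, Red (g i) c) :
    ∃ c, Red (fun y => ∑ i ∈ s, g i y) c := by
  classical
  induction s using Finset.induction_on with
  | empty => exact ⟨0, fun _ => 0, fun y => by simp [Q]⟩
  | insert a s ha ih =>
    obtain ⟨c₁, h₁⟩ := h a (mem_insert_self a s)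
    obtain ⟨c₂, h₂⟩ := ih fun i hi => h i (mem_insert_of_mem hi)
    refine ⟨c₁ + c₂, ?_⟩
    have h3 := h₁.add h₂
    have e : (fun y => ∑ i ∈ insert a s, g i y) = fun y => g a y + ∑ i ∈ s, g i y := by
      funext y
      rw [sum_insert ha]
    rw [e]
    exact h3

open Polynomial in
theorem red_exists (m : ℕ) (hm : Odd m) : ∃ c, Red (fun y => 2 * y^m) c := by
  induction m using Nat.strong_induction_on with
  | _ m ih =>
    rcases Nat.lt_or_ge m 2 with h1 | h1
    · have : m = 1 := by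
        rcases hm with ⟨t, ht⟩
        omega
      subst this
      exact ⟨-1, fun _ => 0, fun y => by unfold Q; ring⟩
    obtain ⟨n, hn, hne⟩ : ∃ n, m = n + 3 ∧ Even n := by
      obtain ⟨t, ht⟩ := hm
      exact ⟨2*(t-1), by omega, even_two_mul _⟩
    let R : ℤ[X] := (X - C 1)^3 * (X + C 2)^n
    have hmon : R.Monic := ((monic_X_sub_C 1).pow 3).mul ((monic_X_add_C 2).pow n)
    have hdeg : R.natDegree = m := by
      show ((X - C 1)^3 * (X + C 2)^n : ℤ[X]).natDegree = m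
      rw [((monic_X_sub_C (1:ℤ)).pow 3).natDegree_mul ((monic_X_add_C (2:ℤ)).pow n),
        (monic_X_sub_C (1:ℤ)).natDegree_pow, (monic_X_add_C (2:ℤ)).natDegree_pow,
        natDegree_X_sub_C, natDegree_X_add_C, hn]
      ring
    have hR : ∀ y : ℤ, R.eval y - R.eval (-y) = Q (fun z => z^n) y := by
      intro y
      have e1 : ∀ z : ℤ, R.eval z = (z-1)^3 * (z+2)^n := by
        intro z
        simp [R]
      rw [e1, e1]
      unfold Q
      have e2 : (-y+2)^n = (y-2)^n := by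
        have : -y+2 = -(y-2) := by ring
        rw [this, hne.neg_pow]
      rw [e2]
      ring
    have hS : ∀ y : ℤ, R.eval y - R.eval (-y) =
        (∑ i ∈ range m, R.coeff i * (y^i - (-y)^i)) + 2*y^m := by
      intro y
      rw [eval_eq_sum_range, eval_eq_sum_range, hdeg, ← sum_sub_distrib, sum_range_succ]
      have hc : R.coeff m = 1 := by
        rw [← hdeg]
        exact hmon
      rw [hc, hm.neg_pow]
      have : ∀ i, R.coeff i * y^i - R.coeff i * (-y)^i = R.coeff i * (y^i - (-y)^i) :=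
        fun i => by ring
      simp only [this]
      ring
    have hlow : ∀ i ∈ range m, ∃ c, Red (fun y => R.coeff i * (y^i - (-y)^i)) c := by
      intro i hi
      rw [mem_range] at hi
      rcases Nat.even_or_odd i with he | ho
      · refine ⟨0, fun _ => 0, fun y => ?_⟩
        show R.coeff i * (y^i - (-y)^i) = _
        rw [he.neg_pow]
        unfold Q
        ring
      · obtain ⟨c, hc⟩ := ih i hi ho
        refine ⟨R.coeff i * c, ?_⟩
        have h3 := hc.smul (R.coeff i)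
        have e : (fun y : ℤ => R.coeff i * (y^i - (-y)^i)) = fun y => R.coeff i * (2 * y^i) := by
          funext y
          rw [ho.neg_pow]
          ring
        rw [e]
        exact h3
    obtain ⟨c, hc⟩ := Red.sum _ _ hlow
    obtain ⟨H, hH⟩ := hc
    refine ⟨-c, fun y => y^n - H y, fun y => ?_⟩
    have h4 := hR y
    rw [hS y] at h4
    have h5 := hH y
    have h6 : Q (fun y => y^n - H y) y = Q (fun z => z^n) y - Q H y := by
      unfold Q
      ring
    show 2 * y^m = _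
    rw [h6, ← h4]
    have h7 : Q H y = (∑ i ∈ range m, R.coeff i * (y^i - (-y)^i)) + 2 * c * y := by
      linarith
    rw [h7]
    ring

section
variable {p : ℕ} [hp : Fact p.Prime]

theorem W_one (N : ℕ) : W (fun y => y) N = ∑ n ∈ range (N+1), F n 0 := by
  unfold W
  refine sum_congr rfl fun k _ => ?_
  rw [F_zero]
  unfold aa
  push_cast
  ring

theorem dv_aa (h2 : p ≠ 2) {r M N : ℕ} (hr : 1 ≤ r) (hM : p^r = 2*M+1)
    (hN : N = M+1 ∨ N = 2*M) : Dv p (r+2) ((((N:ℚ)+1) * aa (N+1))^3) := by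
  have e : ((N:ℚ)+1) * aa (N+1) = ph (N+1) / (N.factorial : ℕ) := by
    unfold aa
    rw [Nat.factorial_succ]
    have h1 : (N.factorial : ℚ) ≠ 0 := by positivity
    have h2 : (N:ℚ) + 1 ≠ 0 := by positivity
    push_cast
    field_simp
  rw [e]
  have h3 := (val_U h2 hr hM hN).pow 3
  refine h3.mono ?_
  push_cast
  have : (1:ℤ) ≤ r := by exact_mod_cast hr
  linarith

theorem red_cong (h2 : p ≠ 2) {r M N : ℕ} (hr : 1 ≤ r) (hM : p^r = 2*M+1)
    (hN : N = M+1 ∨ N = 2*M) {g : ℤ → ℤ} {c : ℤ} (h : Red g c) :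
    Dv p (r+2) (W g N - 2 * c * (p^r * (-1)^M)) := by
  obtain ⟨H, hH⟩ := h
  have e : W g N = (∑ k ∈ range (N+1), (-1:ℚ)^k * (Q H (4*k-1) : ℤ) * aa k ^ 3)
      - 2 * c * W (fun y => y) N := by
    unfold W
    rw [mul_sum, ← sum_sub_distrib]
    refine sum_congr rfl fun k _ => ?_
    rw [hH]
    push_cast
    ring
  rw [e, telescope, W_one]
  have h3 := (dv_aa h2 hr hM hN).int_mul (64 * (-1)^N * H (4*N+1))
  have h4 := (S1_cong h2 hr hM hN).int_mul (2*c)
  have h5 := h3.sub h4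
  have e2 : (64 * (-1)^N * (H (4*N+1) : ℤ) * (((N:ℚ)+1) * aa (N+1))^3 - 2 * c *
      ∑ n ∈ range (N+1), F n 0) - 2 * c * (p^r * (-1)^M) =
      ((64 * (-1)^N * H (4*N+1) : ℤ) : ℚ) * (((N:ℚ)+1) * aa (N+1))^3 -
      ((2 * c : ℤ) : ℚ) * (∑ n ∈ range (N+1), F n 0 + p^r * (-1)^M) := by
    push_cast
    ring
  rw [e2]
  exact h5

theorem half_cong (h2 : p ≠ 2) {r M N m : ℕ} (hr : 1 ≤ r) (hM : p^r = 2*M+1)
    (hN : N = M+1 ∨ N = 2*M) {c : ℤ} (h : Red (fun y => 2 * y^m) c) :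
    Dv p (r+2) (W (fun y => y^m) N - c * p^r * (-1)^M) := by
  have h3 := red_cong h2 hr hM hN h
  have e : W (fun y => 2 * y^m) N - 2 * c * (p^r * (-1)^M) =
      2 * (W (fun y => y^m) N - c * p^r * (-1)^M) := by
    unfold W
    rw [mul_sub, mul_sum]
    congr 1
    · refine sum_congr rfl fun k _ => ?_
      push_cast
      ring
    · ring
  rw [e] at h3
  rcases h3 with h3 | h3
  · left
    rcases mul_eq_zero.1 h3 with h4 | h4
    · norm_num at h4
    · exact h4
  · by_cases h0 : W (fun y => y^m) N - c * p^r * (-1)^M = 0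
    · exact Or.inl h0
    · right
      rw [padicValRat.mul (by norm_num) h0, val_two h2, zero_add] at h3
      exact h3

end

theorem sign (s r M : ℕ) (h : (2*s+1)^r = 2*M+1) : (-1:ℚ)^M = (-1)^(s*r) := by
  induction r generalizing M with
  | zero =>
    have : M = 0 := by
      rw [pow_zero] at h
      omega
    subst this
    simp
  | succ r ih =>
    obtain ⟨M', hM'⟩ : Odd ((2*s+1)^r) := (odd_two_mul_add_one s).pow
    have h3 : M = 2*(M'*s) + M' + s := by
      rw [pow_succ, hM'] at h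
      have : (2*M'+1)*(2*s+1) = 2*(2*(M'*s)+M'+s)+1 := by ring
      rw [this] at h
      omega
    rw [h3, pow_add, pow_add, pow_mul, ih M' hM']
    norm_num
    rw [← pow_add]
    congr 1

end Pool.Agent.N926.Sup
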